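import Pool.Agent.Lib.MP_49fa77_co.H30.Iface

/-!
# CV: covering the parallel body of a rhombus by unit disks
-/

set_option autoImplicit false

namespace FT58.AS.H03

open Real MeasureTheory Set Metric Filter Relation FT58 FT58.AS

/-! ## A natural number below -/

lemma exists_cell (N : ℕ) (hN : 1 ≤ N) (α : ℝ) (h0 : 0 ≤ α) (h1 : α ≤ N) :
    ∃ j : ℕ, j + 1 ≤ N ∧ (j : ℝ) ≤ α ∧ α ≤ j + 1 := by
  by_cases h : α < N
  · refine ⟨⌊α⌋₊, ?_, Nat.floor_le h0, (Nat.lt_floor_add_one α).le⟩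
    exact (Nat.floor_lt h0).2 h
  · refine ⟨N - 1, by omega, ?_, ?_⟩
    · have : ((N - 1 : ℕ) : ℝ) = N - 1 := by push_cast [hN]; ring
      rw [this]; linarith
    · have : ((N - 1 : ℕ) : ℝ) = N - 1 := by push_cast [hN]; ring
      rw [this]; linarith

/-! ## Norms -/

lemma om_sq_norm (x y : ℝ) : ‖(x : ℂ) + y * om‖ ^ 2 = x ^ 2 + x * y + y ^ 2 := by
  rw [← Complex.normSq_eq_norm_sq, Complex.normSq_apply]
  have h3 : √3 * √3 = 3 := Real.mul_self_sqrt (by norm_num)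
  simp [om]
  nlinarith [h3]

lemma norm_om : ‖om‖ = 1 := by
  have h := om_sq_norm 0 1
  have h1 : ‖om‖ ^ 2 = 1 := by simpa using h
  have h2 : 0 ≤ ‖om‖ := norm_nonneg _
  nlinarith

/-! ## A point on a side -/

lemma seg (z z₁ z₂ : ℂ) (f ρ L : ℝ) (hf0 : 0 ≤ f) (hf1 : f ≤ 1)
    (hz : ‖z - ((1 - f : ℝ) * z₁ + (f : ℝ) * z₂)‖ ≤ ρ) (hL : ‖z₁ - z₂‖ ≤ L)
    (hρ : ρ ^ 2 + L ^ 2 / 4 ≤ 1) : ‖z - z₁‖ ≤ 1 ∨ ‖z - z₂‖ ≤ 1 := by
  by_contra hcon
  push Not at hcon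
  obtain ⟨h1, h2⟩ := hcon
  have e1 : 1 < ‖z - z₁‖ ^ 2 := by nlinarith
  have e2 : 1 < ‖z - z₂‖ ^ 2 := by nlinarith
  have e3 : ‖z - ((1 - f : ℝ) * z₁ + (f : ℝ) * z₂)‖ ^ 2 ≤ ρ ^ 2 := by
    have := norm_nonneg (z - ((1 - f : ℝ) * z₁ + (f : ℝ) * z₂))
    nlinarith
  have e4 : ‖z₁ - z₂‖ ^ 2 ≤ L ^ 2 := by
    have := norm_nonneg (z₁ - z₂)
    nlinarith
  have key : (1 - f) * ‖z - z₁‖ ^ 2 + f * ‖z - z₂‖ ^ 2
      = ‖z - ((1 - f : ℝ) * z₁ + (f : ℝ) * z₂)‖ ^ 2 + f * (1 - f) * ‖z₁ - z₂‖ ^ 2 := by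
    simp only [← Complex.normSq_eq_norm_sq, Complex.normSq_apply]
    simp
    ring
  have e5 : f * (1 - f) ≤ 1 / 4 := by nlinarith [sq_nonneg (f - 1 / 2)]
  have e6 : 0 ≤ f * (1 - f) := mul_nonneg hf0 (by linarith)
  have e7 : f * (1 - f) * ‖z₁ - z₂‖ ^ 2 ≤ 1 / 4 * L ^ 2 := by
    apply mul_le_mul e5 e4 (by positivity) (by norm_num)
  have e8 : 1 < (1 - f) * ‖z - z₁‖ ^ 2 + f * ‖z - z₂‖ ^ 2 := by
    rcases eq_or_lt_of_le hf0 with h | h
    · rw [← h]; linarith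
    · nlinarith [mul_nonneg (sub_nonneg.2 hf1) (sub_nonneg.2 e1.le)]
  nlinarith

lemma side (M : ℕ) (hM : 1 ≤ M) (ρ p : ℝ) (h : ρ ^ 2 + (p / M) ^ 2 / 4 ≤ 1) (hp : 0 ≤ p)
    (b u z : ℂ) (hu : ‖u‖ = 1) (y : ℝ) (hy0 : 0 ≤ y) (hy1 : y ≤ 1)
    (hz : ‖z - (b + p * (y * u))‖ ≤ ρ) :
    ∃ j : ℕ, j < M + 1 ∧ ‖z - (b + p * (((j / M : ℝ) : ℂ) * u))‖ ≤ 1 := by
  have hM0 : (0 : ℝ) < M := by exact_mod_cast hM
  obtain ⟨j, hj, hj0, hj1⟩ := exists_cell M hM (M * y) (by positivity) (by nlinarith)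
  have hd : ‖(b + p * (((j / M : ℝ) : ℂ) * u)) - (b + p * ((((j + 1 : ℕ) / M : ℝ) : ℂ) * u))‖
      ≤ p / M := by
    have e : (b + p * (((j / M : ℝ) : ℂ) * u)) - (b + p * ((((j + 1 : ℕ) / M : ℝ) : ℂ) * u))
        = (-(p / M) : ℝ) * u := by
      push_cast
      ring
    rw [e, norm_mul, hu, mul_one, Complex.norm_real, Real.norm_eq_abs, abs_neg,
      abs_of_nonneg (by positivity)]
  have hc : (b + p * (y * u) : ℂ) = (1 - (M * y - j) : ℝ) * (b + p * (((j / M : ℝ) : ℂ) * u))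
      + ((M * y - j : ℝ) : ℂ) * (b + p * ((((j + 1 : ℕ) / M : ℝ) : ℂ) * u)) := by
    have hMc : (M : ℂ) ≠ 0 := by exact_mod_cast hM0.ne'
    push_cast
    field_simp
    ring
  rw [hc] at hz
  rcases seg z _ _ (M * y - j) ρ (p / M) (by linarith) (by linarith) hz hd h with h1 | h1
  · exact ⟨j, by omega, h1⟩
  · exact ⟨j + 1, by omega, h1⟩

/-! ## A point of the rhombus -/

lemma tri_min (f g h : ℝ) (hf : 0 ≤ f) (hg : 0 ≤ g) (hh : 0 ≤ h) (hs : f + g + h = 1) :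
    f ^ 2 + f * g + g ^ 2 ≤ 1 / 3 ∨ g ^ 2 + g * h + h ^ 2 ≤ 1 / 3 ∨
      h ^ 2 + h * f + f ^ 2 ≤ 1 / 3 := by
  have key : ∀ a b c : ℝ, 0 ≤ a → 0 ≤ b → a ≤ c → b ≤ c → a + b + c = 1 →
      a ^ 2 + a * b + b ^ 2 ≤ 1 / 3 := by
    intro a b c ha hb hac hbc hsum
    have h1 : 2 * a + b ≤ 1 := by linarith
    have h2 : a + 2 * b ≤ 1 := by linarith
    nlinarith [mul_nonneg ha (sub_nonneg.2 h1), mul_nonneg hb (sub_nonneg.2 h2),
      mul_nonneg (sub_nonneg.2 h1) (sub_nonneg.2 h2)]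
  rcases le_total f g with h1 | h1
  · rcases le_total g h with h2 | h2
    · exact Or.inl (key f g h hf hg (by linarith) h2 hs)
    · exact Or.inr (Or.inr (key h f g hh hf h2 h1 (by linarith)))
  · rcases le_total f h with h2 | h2
    · exact Or.inl (key f g h hf hg h2 (by linarith) hs)
    · exact Or.inr (Or.inl (key g h f hg hh h1 h2 (by linarith)))

lemma corner (f g : ℝ) (hf : 0 ≤ f) (hf1 : f ≤ 1) (hg : 0 ≤ g) (hg1 : g ≤ 1) :
    ∃ a b : ℕ, a ≤ 1 ∧ b ≤ 1 ∧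
      (f - a) ^ 2 + (f - a) * (g - b) + (g - b) ^ 2 ≤ 1 / 3 := by
  rcases le_total (f + g) 1 with h | h
  · rcases tri_min f g (1 - f - g) hf hg (by linarith) (by ring) with h1 | h1 | h1
    · exact ⟨0, 0, by norm_num, by norm_num, by push_cast; nlinarith⟩
    · exact ⟨1, 0, by norm_num, by norm_num, by push_cast; nlinarith⟩
    · exact ⟨0, 1, by norm_num, by norm_num, by push_cast; nlinarith⟩
  · rcases tri_min (1 - f) (1 - g) (f + g - 1) (by linarith) (by linarith) (by linarith)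
      (by ring) with h1 | h1 | h1
    · exact ⟨1, 1, by norm_num, by norm_num, by push_cast; nlinarith⟩
    · exact ⟨0, 1, by norm_num, by norm_num, by push_cast; nlinarith⟩
    · exact ⟨1, 0, by norm_num, by norm_num, by push_cast; nlinarith⟩

lemma inner (N : ℕ) (hN : 1 ≤ N) (ρ p : ℝ) (hρ : 0 < ρ) (hρ1 : ρ ≤ 1) (hp : p = ρ * √3 * N)
    (x y : ℝ) (hx0 : 0 ≤ x) (hx1 : x ≤ 1) (hy0 : 0 ≤ y) (hy1 : y ≤ 1) :
    ∃ j k : ℕ, j < N + 1 ∧ k < N + 1 ∧
      ‖(p : ℂ) * (x + y * om) - p * (((j / N : ℝ) : ℂ) + ((k / N : ℝ) : ℂ) * om)‖ ≤ 1 := by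
  have hN0 : (0 : ℝ) < N := by exact_mod_cast hN
  obtain ⟨j, hj, hj0, hj1⟩ := exists_cell N hN (N * x) (by positivity) (by nlinarith)
  obtain ⟨k, hk, hk0, hk1⟩ := exists_cell N hN (N * y) (by positivity) (by nlinarith)
  obtain ⟨a, b, ha, hb, hab⟩ := corner (N * x - j) (N * y - k) (by linarith) (by linarith)
    (by linarith) (by linarith)
  refine ⟨j + a, k + b, by omega, by omega, ?_⟩
  have e : (p : ℂ) * (x + y * om)
      - p * ((((j + a : ℕ) / N : ℝ) : ℂ) + (((k + b : ℕ) / N : ℝ) : ℂ) * om)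
      = ((ρ * √3 : ℝ) : ℂ) * (((N * x - j - a : ℝ) : ℂ) + ((N * y - k - b : ℝ) : ℂ) * om) := by
    have hNc : (N : ℂ) ≠ 0 := by exact_mod_cast hN0.ne'
    rw [hp]
    push_cast
    field_simp
    ring
  rw [e, norm_mul, Complex.norm_real, Real.norm_eq_abs, abs_of_nonneg (by positivity)]
  have h3 : √3 * √3 = 3 := Real.mul_self_sqrt (by norm_num)
  have h4 := om_sq_norm (N * x - j - a) (N * y - k - b)
  have h5 : (ρ * √3 * ‖((N * x - j - a : ℝ) : ℂ) + ((N * y - k - b : ℝ) : ℂ) * om‖) ^ 2 ≤ 1 := by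
    rw [mul_pow, mul_pow, h4, pow_two √3, h3]
    have h6 : ρ ^ 2 ≤ 1 := by nlinarith
    have h7 : (0 : ℝ) ≤ (N * x - j - a) ^ 2 + (N * x - j - a) * (N * y - k - b)
        + (N * y - k - b) ^ 2 := by
      nlinarith [sq_nonneg ((N * x - j - a) + (N * y - k - b)), sq_nonneg (N * x - j - a),
        sq_nonneg (N * y - k - b)]
    nlinarith [mul_nonneg (sub_nonneg.2 h6) h7]
  have h8 : 0 ≤ ρ * √3 * ‖((N * x - j - a : ℝ) : ℂ) + ((N * y - k - b : ℝ) : ℂ) * om‖ := by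
    positivity
  nlinarith

/-! ## The last point in the rhombus -/

lemma exit (x y X Y : ℝ) (hx0 : 0 ≤ x) (hx1 : x ≤ 1) (hy0 : 0 ≤ y) (hy1 : y ≤ 1)
    (h : ¬ (0 ≤ X ∧ X ≤ 1 ∧ 0 ≤ Y ∧ Y ≤ 1)) :
    ∃ t : ℝ, 0 ≤ t ∧ t ≤ 1 ∧ 0 ≤ x + t * (X - x) ∧ x + t * (X - x) ≤ 1 ∧
      0 ≤ y + t * (Y - y) ∧ y + t * (Y - y) ≤ 1 ∧
      (x + t * (X - x) = 0 ∨ x + t * (X - x) = 1 ∨ y + t * (Y - y) = 0 ∨
        y + t * (Y - y) = 1) := by
  set φ : ℝ → ℝ := fun t => max (max (x + t * (X - x) - 1) (-(x + t * (X - x))))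
    (max (y + t * (Y - y) - 1) (-(y + t * (Y - y)))) with hφ
  have hc : ContinuousOn φ (Icc 0 1) := by
    apply Continuous.continuousOn
    fun_prop
  have h0 : φ 0 ≤ 0 := by
    simp only [hφ]
    refine max_le (max_le ?_ ?_) (max_le ?_ ?_) <;> linarith
  have h1 : 0 ≤ φ 1 := by
    by_contra hcon
    push Not at hcon
    apply h
    have e1 : (x + 1 * (X - x) - 1) ≤ φ 1 :=
      le_trans (le_max_left _ _) (le_max_left _ _)
    have e2 : (-(x + 1 * (X - x))) ≤ φ 1 :=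
      le_trans (le_max_right _ _) (le_max_left _ _)
    have e3 : (y + 1 * (Y - y) - 1) ≤ φ 1 :=
      le_trans (le_max_left _ _) (le_max_right _ _)
    have e4 : (-(y + 1 * (Y - y))) ≤ φ 1 :=
      le_trans (le_max_right _ _) (le_max_right _ _)
    refine ⟨?_, ?_, ?_, ?_⟩ <;> linarith
  obtain ⟨t, ht, hft⟩ := intermediate_value_Icc (by norm_num : (0 : ℝ) ≤ 1) hc ⟨h0, h1⟩
  have e1 : (x + t * (X - x) - 1) ≤ φ t := le_trans (le_max_left _ _) (le_max_left _ _)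
  have e2 : (-(x + t * (X - x))) ≤ φ t := le_trans (le_max_right _ _) (le_max_left _ _)
  have e3 : (y + t * (Y - y) - 1) ≤ φ t := le_trans (le_max_left _ _) (le_max_right _ _)
  have e4 : (-(y + t * (Y - y))) ≤ φ t := le_trans (le_max_right _ _) (le_max_right _ _)
  rw [hft] at e1 e2 e3 e4
  refine ⟨t, ht.1, ht.2, by linarith, by linarith, by linarith, by linarith, ?_⟩
  have hm : φ t = 0 := hft
  simp only [hφ] at hm
  rcases max_choice (max (x + t * (X - x) - 1) (-(x + t * (X - x))))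
    (max (y + t * (Y - y) - 1) (-(y + t * (Y - y)))) with h2 | h2
  · rw [h2] at hm
    rcases max_choice (x + t * (X - x) - 1) (-(x + t * (X - x))) with h3 | h3
    · rw [h3] at hm; right; left; linarith
    · rw [h3] at hm; left; linarith
  · rw [h2] at hm
    rcases max_choice (y + t * (Y - y) - 1) (-(y + t * (Y - y))) with h3 | h3
    · rw [h3] at hm; right; right; right; linarith
    · rw [h3] at hm; right; right; left; linarith

/-- Coordinates in the basis `1, om`. -/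
lemma exists_coord (z : ℂ) : ∃ X Y : ℝ, z = (X : ℂ) + Y * om := by
  have h3 : √3 * √3 = 3 := Real.mul_self_sqrt (by norm_num)
  have h30 : √3 ≠ 0 := by positivity
  refine ⟨z.re - z.im / √3, 2 * z.im / √3, ?_⟩
  apply Complex.ext
  · simp [om]
    field_simp
    ring
  · simp [om]
    field_simp

/-! ## The covering -/

open Classical in
/-- The centres. -/
noncomputable def Zc (N M : ℕ) (p : ℝ) : Finset ℂ :=
  ((Finset.range (N + 1) ×ˢ Finset.range (N + 1)).image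
    fun q : ℕ × ℕ => (p : ℂ) * (((q.1 / N : ℝ) : ℂ) + ((q.2 / N : ℝ) : ℂ) * om)) ∪
  ((((Finset.range (M + 1)).image fun j : ℕ => (p : ℂ) * (((j / M : ℝ) : ℂ) + ((0 : ℝ) : ℂ) * om)) ∪
    ((Finset.range (M + 1)).image fun j : ℕ => (p : ℂ) * (((0 : ℝ) : ℂ) + ((j / M : ℝ) : ℂ) * om))) ∪
   (((Finset.range (M + 1)).image fun j : ℕ => (p : ℂ) * (((j / M : ℝ) : ℂ) + ((1 : ℝ) : ℂ) * om)) ∪
    ((Finset.range (M + 1)).image fun j : ℕ => (p : ℂ) * (((1 : ℝ) : ℂ) + ((j / M : ℝ) : ℂ) * om))))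

lemma card_Zc (N M : ℕ) (p : ℝ) : (Zc N M p).card ≤ (N + 1) ^ 2 + 4 * (M + 1) := by
  classical
  unfold Zc
  refine (Finset.card_union_le _ _).trans ?_
  refine (add_le_add Finset.card_image_le (Finset.card_union_le _ _)).trans ?_
  refine (add_le_add le_rfl (add_le_add (Finset.card_union_le _ _)
    (Finset.card_union_le _ _))).trans ?_
  refine (add_le_add le_rfl (add_le_add (add_le_add Finset.card_image_le Finset.card_image_le)
    (add_le_add Finset.card_image_le Finset.card_image_le))).trans ?_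
  rw [Finset.card_product, Finset.card_range, Finset.card_range]
  apply le_of_eq
  ring

theorem cv_st : CvS := by
  classical
  intro N M ρ p hN hM hρ hp hle
  have hN0 : (0 : ℝ) < N := by exact_mod_cast hN
  have hM0 : (0 : ℝ) < M := by exact_mod_cast hM
  have hp0 : 0 < p := by rw [hp]; positivity
  have hρ1 : ρ ≤ 1 := by nlinarith [sq_nonneg (p / M)]
  have hdiv : ∀ K j : ℕ, 1 ≤ K → j < K + 1 → 0 ≤ (j / K : ℝ) ∧ (j / K : ℝ) ≤ 1 := by
    intro K j hK hj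
    have hK0 : (0 : ℝ) < K := by exact_mod_cast hK
    have hjK : (j : ℝ) ≤ K := by exact_mod_cast Nat.lt_succ_iff.1 hj
    exact ⟨by positivity, (div_le_one hK0).2 hjK⟩
  refine ⟨Zc N M p, ?_, card_Zc N M p, ?_, ?_⟩
  · refine ⟨(p : ℂ) * (((0 / N : ℝ) : ℂ) + ((0 / N : ℝ) : ℂ) * om), ?_⟩
    apply Finset.mem_union_left
    rw [Finset.mem_image]
    exact ⟨(0, 0), by simp, by simp⟩
  · intro z hz
    simp only [Zc, Finset.mem_union, Finset.mem_image, Finset.mem_product, Finset.mem_range] at hz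
    rcases hz with ⟨q, ⟨h1, h2⟩, rfl⟩ | (⟨j, hj, rfl⟩ | ⟨j, hj, rfl⟩) | (⟨j, hj, rfl⟩ | ⟨j, hj, rfl⟩)
    · exact ⟨q.1 / N, q.2 / N, (hdiv N q.1 hN h1).1, (hdiv N q.1 hN h1).2, (hdiv N q.2 hN h2).1,
        (hdiv N q.2 hN h2).2, rfl⟩
    · exact ⟨j / M, 0, (hdiv M j hM hj).1, (hdiv M j hM hj).2, le_rfl, zero_le_one, rfl⟩
    · exact ⟨0, j / M, le_rfl, zero_le_one, (hdiv M j hM hj).1, (hdiv M j hM hj).2, rfl⟩
    · exact ⟨j / M, 1, (hdiv M j hM hj).1, (hdiv M j hM hj).2, zero_le_one, le_rfl, rfl⟩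
    · exact ⟨1, j / M, zero_le_one, le_rfl, (hdiv M j hM hj).1, (hdiv M j hM hj).2, rfl⟩
  · intro z hz
    obtain ⟨w, ⟨v, hv, s, hs0, hs1, rfl⟩, r, hr0, hr1, rfl⟩ := hz
    rw [mem_closedBall, dist_zero_right] at hv
    obtain ⟨X, Y, hXY⟩ := exists_coord ((v + s * (p * om) + r * p) / p)
    have hpc : (p : ℂ) ≠ 0 := by exact_mod_cast hp0.ne'
    have hzz : v + s * (p * om) + r * p = p * ((X : ℂ) + Y * om) := by
      rw [← hXY]; field_simp
    rw [hzz]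
    by_cases hin : 0 ≤ X ∧ X ≤ 1 ∧ 0 ≤ Y ∧ Y ≤ 1
    · obtain ⟨hX0, hX1, hY0, hY1⟩ := hin
      obtain ⟨j, k, hj, hk, hd⟩ := inner N hN ρ p hρ hρ1 hp X Y hX0 hX1 hY0 hY1
      refine ⟨_, ?_, hd⟩
      apply Finset.mem_union_left
      rw [Finset.mem_image]
      exact ⟨(j, k), by simp [Finset.mem_product]; omega, rfl⟩
    · obtain ⟨t, ht0, ht1, hx0, hx1, hy0, hy1, hside⟩ := exit r s X Y hr0 hr1 hs0 hs1 hin
      have hnear : ‖(p : ℂ) * ((X : ℂ) + Y * om) - p * (((r + t * (X - r) : ℝ) : ℂ)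
          + ((s + t * (Y - s) : ℝ) : ℂ) * om)‖ ≤ ρ := by
        have e : (p : ℂ) * ((X : ℂ) + Y * om) - p * (((r + t * (X - r) : ℝ) : ℂ)
          + ((s + t * (Y - s) : ℝ) : ℂ) * om) = ((1 - t : ℝ) : ℂ) * v := by
          have e1 : v = p * ((X : ℂ) + Y * om) - s * (p * om) - r * p := by
            rw [← hzz]; ring
          rw [e1]
          push_cast
          ring
        rw [e, norm_mul, Complex.norm_real, Real.norm_eq_abs, abs_of_nonneg (by linarith)]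
        nlinarith [norm_nonneg v]
      set x' := r + t * (X - r) with hx'
      set y' := s + t * (Y - s) with hy'
      rcases hside with h | h | h | h
      · -- x' = 0
        have e : (p : ℂ) * ((x' : ℂ) + (y' : ℂ) * om) = 0 + p * (y' * om) := by
          rw [h]; push_cast; ring
        rw [e] at hnear
        obtain ⟨j, hj, hd⟩ := side M hM ρ p hle hp0.le 0 om _ norm_om y' hy0 hy1 hnear
        refine ⟨(p : ℂ) * (((0 : ℝ) : ℂ) + ((j / M : ℝ) : ℂ) * om), ?_, ?_⟩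
        · simp only [Zc, Finset.mem_union, Finset.mem_image, Finset.mem_range]
          exact Or.inr (Or.inl (Or.inr ⟨j, hj, rfl⟩))
        · have e2 : (p : ℂ) * (((0 : ℝ) : ℂ) + ((j / M : ℝ) : ℂ) * om)
              = 0 + p * (((j / M : ℝ) : ℂ) * om) := by push_cast; ring
          rw [e2]; exact hd
      · -- x' = 1
        have e : (p : ℂ) * ((x' : ℂ) + (y' : ℂ) * om) = p + p * (y' * om) := by
          rw [h]; push_cast; ring
        rw [e] at hnear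
        obtain ⟨j, hj, hd⟩ := side M hM ρ p hle hp0.le p om _ norm_om y' hy0 hy1 hnear
        refine ⟨(p : ℂ) * (((1 : ℝ) : ℂ) + ((j / M : ℝ) : ℂ) * om), ?_, ?_⟩
        · simp only [Zc, Finset.mem_union, Finset.mem_image, Finset.mem_range]
          exact Or.inr (Or.inr (Or.inr ⟨j, hj, rfl⟩))
        · have e2 : (p : ℂ) * (((1 : ℝ) : ℂ) + ((j / M : ℝ) : ℂ) * om)
              = p + p * (((j / M : ℝ) : ℂ) * om) := by push_cast; ring
          rw [e2]; exact hd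
      · -- y' = 0
        have e : (p : ℂ) * ((x' : ℂ) + (y' : ℂ) * om) = 0 + p * (x' * 1) := by
          rw [h]; push_cast; ring
        rw [e] at hnear
        obtain ⟨j, hj, hd⟩ := side M hM ρ p hle hp0.le 0 1 _ norm_one x' hx0 hx1 hnear
        refine ⟨(p : ℂ) * (((j / M : ℝ) : ℂ) + ((0 : ℝ) : ℂ) * om), ?_, ?_⟩
        · simp only [Zc, Finset.mem_union, Finset.mem_image, Finset.mem_range]
          exact Or.inr (Or.inl (Or.inl ⟨j, hj, rfl⟩))
        · have e2 : (p : ℂ) * (((j / M : ℝ) : ℂ) + ((0 : ℝ) : ℂ) * om)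
              = 0 + p * (((j / M : ℝ) : ℂ) * 1) := by push_cast; ring
          rw [e2]; exact hd
      · -- y' = 1
        have e : (p : ℂ) * ((x' : ℂ) + (y' : ℂ) * om) = p * om + p * (x' * 1) := by
          rw [h]; push_cast; ring
        rw [e] at hnear
        obtain ⟨j, hj, hd⟩ := side M hM ρ p hle hp0.le (p * om) 1 _ norm_one x' hx0 hx1 hnear
        refine ⟨(p : ℂ) * (((j / M : ℝ) : ℂ) + ((1 : ℝ) : ℂ) * om), ?_, ?_⟩
        · simp only [Zc, Finset.mem_union, Finset.mem_image, Finset.mem_range]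
          exact Or.inr (Or.inr (Or.inl ⟨j, hj, rfl⟩))
        · have e2 : (p : ℂ) * (((j / M : ℝ) : ℂ) + ((1 : ℝ) : ℂ) * om)
              = p * om + p * (((j / M : ℝ) : ℂ) * 1) := by push_cast; ring
          rw [e2]; exact hd

end FT58.AS.H03
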